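import Pool.Agent.H862R3.Monster.Targets

set_option autoImplicit false

open Pool.Agent.H862R3.Monster

universe u

/-- Super-rigidity of the random monster groups with respect to every discrete subgroup of a second
countable topological group, in particular with respect to every lattice in a finite product of
simple Lie groups and simple algebraic groups over local fields. -/
theorem Pool.Agent.Results.MP_a330b1_al.Lattices.result :
    ∀ (d k j : ℕ) (_ : 3 ≤ d) (hk : 2 ≤ k) (_ : 1 ≤ j)
      (V : ℕ → Type) [∀ n, Finite (V n)] (Ω : ∀ n, SimpleGraph (V n)),
      Standing Ω →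
      (∀ n v, 3 ≤ ((Ω n).neighborSet v).ncard ∧ ((Ω n).neighborSet v).ncard ≤ d) →
      ∀ (H : Type u) [Group H] [TopologicalSpace H] [IsTopologicalGroup H]
        [SecondCountableTopology H] (G : Subgroup H), DiscreteTopology G →
        SuperRigid (Tpow k j hk) Ω G := by
  intro d k j _ hk hj V _ Ω hst hdeg H _ _ _ _ G hG
  have : Countable G := TopologicalSpace.separableSpace_iff_countable.mp inferInstance
  exact superRigid_of_hereditary _
    (hereditary hk (infinite_not_acyclic hst (fun n v => (hdeg n v).2)) (good_Tpow hk hj)
      (quot_mem_Ev_Tpow hk) _)
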